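import Pool.Agent.W307.AT.Stm

/-! AT-CHI: the quadratic field cut out by a quadratic character. -/

set_option autoImplicit false

namespace Pool.Agent.W683.AT

theorem nonvanish (F : Type) [Field F] [NumberField F] (χ : (F ≃ₐ[ℚ] F) →* ℤˣ) :
    ∃ a : F, ∑ σ : F ≃ₐ[ℚ] F, (((χ σ : ℤˣ) : ℤ) : F) * σ a ≠ 0 := by
  classical
  by_contra hcon
  push Not at hcon
  have hli := linearIndependent_monoidHom F F
  have hinj : Function.Injective (fun σ : F ≃ₐ[ℚ] F => ((σ : F →+* F) : F →* F)) := by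
    intro σ τ h
    ext x
    exact DFunLike.congr_fun h x
  have h2 := hli.comp _ hinj
  rw [Fintype.linearIndependent_iff] at h2
  have h3 := h2 (fun σ => (((χ σ : ℤˣ) : ℤ) : F)) (by
    funext a
    rw [Finset.sum_apply]
    refine Eq.trans (Finset.sum_congr rfl fun σ _ => ?_) (hcon a)
    rfl) 1
  rw [map_one] at h3
  simp at h3

theorem sqf (z : ℤ) (hz : z ≠ 0) : ∃ (D : ℤ) (m : ℕ), m ≠ 0 ∧ Squarefree D ∧ z = D * m ^ 2 := by
  obtain ⟨a, b, h1, h2⟩ := Nat.sq_mul_squarefree z.natAbs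
  have hb : b ≠ 0 := by
    rintro rfl
    simp only [ne_eq, OfNat.ofNat_ne_zero, not_false_eq_true, zero_pow, zero_mul] at h1
    exact hz (Int.natAbs_eq_zero.1 h1.symm)
  have h3 : ((z.natAbs : ℕ) : ℤ) = (a : ℤ) * (b : ℤ) ^ 2 := by
    rw [← h1]
    push_cast
    ring
  rcases Int.natAbs_eq z with h | h
  · refine ⟨a, b, hb, ?_, ?_⟩
    · exact Int.squarefree_natCast.2 h2
    · rw [h]
      exact h3
  · refine ⟨-a, b, hb, ?_, ?_⟩
    · rw [← Int.squarefree_natAbs, Int.natAbs_neg, Int.natAbs_natCast]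
      exact h2
    · rw [h, h3]
      ring

theorem chi : Pool.Agent.W307.AT.CHI := by
  intro F _ _ _ χ
  classical
  obtain ⟨a, ha⟩ := nonvanish F χ
  set s0 : F := ∑ σ : F ≃ₐ[ℚ] F, (((χ σ : ℤˣ) : ℤ) : F) * σ a with hs0
  have hτ : ∀ τ : F ≃ₐ[ℚ] F, τ s0 = (((χ τ : ℤˣ) : ℤ) : F) * s0 := by
    intro τ
    rw [hs0, map_sum, Finset.mul_sum, ← Equiv.sum_comp (Equiv.mulLeft τ)
      (fun σ => (((χ τ : ℤˣ) : ℤ) : F) * ((((χ σ : ℤˣ) : ℤ) : F) * σ a))]
    refine Finset.sum_congr rfl fun σ _ => ?_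
    rw [map_mul, map_intCast, Equiv.coe_mulLeft, map_mul, Units.val_mul, Int.cast_mul]
    have h1 : (((χ τ : ℤˣ) : ℤ) : F) * (((χ τ : ℤˣ) : ℤ) : F) = 1 := by
      rw [← Int.cast_mul, ← Units.val_mul, Int.units_mul_self]
      simp
    rw [← mul_assoc, ← mul_assoc, h1, one_mul]
    rfl
  have hfix : s0 ^ 2 ∈ (⊥ : IntermediateField ℚ F) := by
    rw [IsGalois.mem_bot_iff_fixed]
    intro τ
    have h1 : (((χ τ : ℤˣ) : ℤ) : F) * (((χ τ : ℤˣ) : ℤ) : F) = 1 := by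
      rw [← Int.cast_mul, ← Units.val_mul, Int.units_mul_self]
      simp
    rw [map_pow, hτ τ, mul_pow, sq (((χ τ : ℤˣ) : ℤ) : F), h1, one_mul]
  rw [IntermediateField.mem_bot] at hfix
  obtain ⟨q, hq⟩ := hfix
  have hq0 : q ≠ 0 := by
    rintro rfl
    rw [map_zero] at hq
    exact ha (pow_eq_zero_iff (two_ne_zero) |>.1 hq.symm)
  obtain ⟨D, m, hm, hD, hz⟩ := sqf (q.num * q.den) (mul_ne_zero (Rat.num_ne_zero.2 hq0)
    (by exact_mod_cast q.den_nz))
  have hmF : (m : F) ≠ 0 := by exact_mod_cast hm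
  have hdF : (q.den : F) ≠ 0 := by exact_mod_cast q.den_nz
  have hqF : s0 ^ 2 * (q.den : F) = (q.num : F) := by
    rw [← hq]
    have h1 : q * (q.den : ℚ) = (q.num : ℚ) := Rat.mul_den_eq_num q
    have h2 := congrArg (algebraMap ℚ F) h1
    rw [map_mul, map_natCast, map_intCast] at h2
    exact h2
  have hzF : (q.num : F) * (q.den : F) = (D : F) * (m : F) ^ 2 := by
    exact_mod_cast congrArg (fun t : ℤ => (t : F)) hz
  refine ⟨D, s0 * (q.den : F) / (m : F), hD, ?_, ?_⟩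
  · have h3 : (s0 * (q.den : F)) ^ 2 = (D : F) * (m : F) ^ 2 := by
      rw [← hzF, ← hqF]
      ring
    rw [div_pow, h3, mul_div_assoc, div_self (pow_ne_zero 2 hmF), mul_one]
  · intro σ
    rw [map_div₀, map_mul, hτ σ, map_natCast, map_natCast]
    ring

end Pool.Agent.W683.AT
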